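import Pool.Agent.W973.IP.FDefs

/-!
# IPF-KF: meaning of `kF`
-/

set_option autoImplicit false

namespace Pool.Agent.W348.IP

open Pool.Agent.W973.IP Pool.Agent.NPC Pool.Agent.NPC.ER Pool.Agent.NPC.H612

/-- the real number `r` is the value of a term -/
def Rep (z : ℕ → ℝ) (r : ℝ) : Prop := ∃ T : Tm, T.eval z = r

theorem rep_zero (z : ℕ → ℝ) : Rep z 0 := ⟨Tm.zero, rfl⟩

theorem rep_one (z : ℕ → ℝ) : Rep z 1 := ⟨Tm.one, rfl⟩

theorem rep_var (z : ℕ → ℝ) (i : ℕ) : Rep z (z i) := ⟨Tm.var i, rfl⟩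

theorem rep_add {z : ℕ → ℝ} {r s : ℝ} (h1 : Rep z r) (h2 : Rep z s) : Rep z (r + s) := by
  obtain ⟨S, hS⟩ := h1
  obtain ⟨T, hT⟩ := h2
  exact ⟨Tm.add S T, by rw [Tm.eval, hS, hT]⟩

theorem rep_mul {z : ℕ → ℝ} {r s : ℝ} (h1 : Rep z r) (h2 : Rep z s) : Rep z (r * s) := by
  obtain ⟨S, hS⟩ := h1
  obtain ⟨T, hT⟩ := h2
  exact ⟨Tm.mul S T, by rw [Tm.eval, hS, hT]⟩

theorem rep_pow {z : ℕ → ℝ} {r : ℝ} (h1 : Rep z r) (n : ℕ) : Rep z (r ^ n) := by
  induction n with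
  | zero => rw [pow_zero]; exact rep_one z
  | succ n ih => rw [pow_succ]; exact rep_mul ih h1

theorem rep_nat (z : ℕ → ℝ) (n : ℕ) : Rep z (n : ℝ) := by
  induction n with
  | zero => rw [Nat.cast_zero]; exact rep_zero z
  | succ n ih => rw [Nat.cast_succ]; exact rep_add ih (rep_one z)

theorem rep_sum {z : ℕ → ℝ} {ι : Type} (s : Finset ι) (f : ι → ℝ) (h : ∀ i, Rep z (f i)) :
    Rep z (∑ i ∈ s, f i) := by
  classical
  induction s using Finset.induction_on with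
  | empty => rw [Finset.sum_empty]; exact rep_zero z
  | insert a s ha ih => rw [Finset.sum_insert ha]; exact rep_add (h a) ih

theorem rep_X {z : ℕ → ℝ} {n : ℕ} (wn : ℕ → ℕ) : Rep z (X (fun j : Fin n => z (wn j))) := by
  unfold X
  exact rep_add (rep_one z) (rep_sum _ _ fun j => rep_pow (rep_var z _) 2)

theorem nm_mod (ty i j : ℕ) (h : ty < 16) : nm ty i j % 16 = ty := by
  unfold nm
  omega

theorem nm_div (ty i j : ℕ) (h : ty < 16) : nm ty i j / 16 = Nat.pair i j := by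
  unfold nm
  omega

theorem kfT (h1 : S_GT) (h2 : S_CH) (h3 : S_FV) (h4 : S_FV2) (h5 : S_DJP) : S_KF := by
  classical
  intro E S x hx
  have hmem : ∀ m, m ∈ fvars (FF E S) ↔ ∃ r ≤ nn S, m ∈ fvars (finF E S r) := by
    intro m
    rw [FF, (h5 _).2.2.2]
    constructor
    · rintro ⟨φ, hφ, hm⟩
      rw [List.mem_map] at hφ
      obtain ⟨r, hr, rfl⟩ := hφ
      rw [List.mem_range] at hr
      exact ⟨r, by omega, hm⟩
    · rintro ⟨r, hr, hm⟩
      exact ⟨_, List.mem_map.2 ⟨r, List.mem_range.2 (by omega), rfl⟩, hm⟩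
  obtain ⟨m0, m1, m3, m8⟩ := h4 E S 0
  have key : ∀ z : ℕ → ℝ, (∀ t ≤ bb (nn S) * fa (nn S), z (nm 8 t 0) = rt t) →
      z (nm 11 (b0 (nn S)) 0) = X (fun j : Fin (nn S) => z (nm 10 j 0)) ^ NN (nn S) →
      (GT E S (fun j => nm 10 j 0) (Tm.var (nm 11 (b0 (nn S)) 0))).eval z =
        G (hP E S) (aE (nn S)) (z (nm 0 0 0)) (z (nm 1 0 0)) (fun l => z (nm 3 l 0))
          (fun j => z (nm 10 j 0)) := by
    intro z hz hX
    obtain ⟨dT, hdT⟩ : Rep z ((NN (nn S) : ℝ) *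
        X (fun j : Fin (nn S) => z (nm 10 j 0)) ^ (NN (nn S) - 1)) :=
      rep_mul (rep_nat z _) (rep_pow (rep_X (fun j => nm 10 j 0)) _)
    exact (h1 E S (fun j => nm 10 j 0) z (Tm.var (nm 11 (b0 (nn S)) 0)) dT hz hX hdT).1
  constructor
  · rintro ⟨z, hz, hk⟩
    rw [kF, holds_conj] at hk
    have hk1 := hk _ (List.mem_cons_self)
    have hk2 := hk _ (List.mem_cons_of_mem _ List.mem_cons_self)
    rw [h2.1] at hk1
    have z0 : z (nm 0 0 0) = x (nm 0 0 0) := hz _ ((hmem _).2 ⟨0, Nat.zero_le _, m0⟩)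
    have z1 : z (nm 1 0 0) = x (nm 1 0 0) := hz _ ((hmem _).2 ⟨0, Nat.zero_le _, m1⟩)
    have z3 : ∀ l < nn S, z (nm 3 l 0) = x (nm 3 l 0) := fun l hl =>
      hz _ ((hmem _).2 ⟨0, Nat.zero_le _, m3 l hl⟩)
    have z8 : ∀ t ≤ bb (nn S) * fa (nn S), z (nm 8 t 0) = rt t := fun t ht => by
      rw [hz _ ((hmem _).2 ⟨0, Nat.zero_le _, m8 t ht⟩), hx t ht]
    have hk3 := key z z8 (hk1 _ le_rfl)
    refine ⟨fun j => z (nm 10 j 0), ?_⟩
    change (GT E S (fun j => nm 10 j 0) (Tm.var (nm 11 (b0 (nn S)) 0))).eval z ≤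
      z (nm 0 0 0) at hk2
    rw [hk3, z0, z1] at hk2
    have e : (fun l : Fin (nn S) => z (nm 3 l 0)) = fun l : Fin (nn S) => x (nm 3 l 0) := by
      funext l
      exact z3 l l.2
    rw [e] at hk2
    exact hk2
  · rintro ⟨w, hw⟩
    let z : ℕ → ℝ := fun m => if m % 16 = 10 then
      (if h : (Nat.unpair (m / 16)).1 < nn S then w ⟨_, h⟩ else 0)
      else if m % 16 = 11 then X w ^ 2 ^ (Nat.unpair (m / 16)).1 else x m
    have zx : ∀ m, m % 16 ≠ 10 → m % 16 ≠ 11 → z m = x m := by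
      intro m ha hb
      simp only [z, if_neg ha, if_neg hb]
    have z10 : ∀ j : Fin (nn S), z (nm 10 j 0) = w j := by
      intro j
      have ha : nm 10 (j : ℕ) 0 % 16 = 10 := nm_mod 10 j 0 (by norm_num)
      have hb : nm 10 (j : ℕ) 0 / 16 = Nat.pair j 0 := nm_div 10 j 0 (by norm_num)
      simp only [z, if_pos ha, hb, Nat.unpair_pair]
      rw [dif_pos j.2]
    have z11 : ∀ t, z (nm 11 t 0) = X w ^ 2 ^ t := by
      intro t
      have ha : nm 11 t 0 % 16 = 11 := nm_mod 11 t 0 (by norm_num)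
      have hb : nm 11 t 0 / 16 = Nat.pair t 0 := nm_div 11 t 0 (by norm_num)
      simp only [z, ha, hb, Nat.unpair_pair]
      norm_num
    have zt : ∀ ty i j, ty ≤ 9 → z (nm ty i j) = x (nm ty i j) := by
      intro ty i j hty
      apply zx
      · rw [nm_mod ty i j (by omega)]
        omega
      · rw [nm_mod ty i j (by omega)]
        omega
    have ew : (fun j : Fin (nn S) => z (nm 10 j 0)) = w := funext z10
    refine ⟨z, ?_, ?_⟩
    · intro m hm
      obtain ⟨r, -, hr⟩ := (hmem m).1 hm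
      rcases h3 E S r m hr with h | h | h | ⟨l, -, h⟩ | ⟨i, -, j, -, h⟩ | ⟨i, -, h⟩ |
        ⟨i, -, t, -, h | h⟩ | ⟨t, -, h⟩ | ⟨t, -, h⟩ <;>
      · rw [h]
        exact zt _ _ _ (by norm_num)
    · rw [kF, holds_conj]
      intro φ hφ
      rw [List.mem_cons, List.mem_cons] at hφ
      rcases hφ with rfl | rfl | hφ
      · rw [h2.1]
        intro t _
        change z (nm 11 t 0) = X (fun j : Fin (nn S) => z (nm 10 j 0)) ^ 2 ^ t
        rw [z11, ew]
      · change (GT E S (fun j => nm 10 j 0) (Tm.var (nm 11 (b0 (nn S)) 0))).eval z ≤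
          z (nm 0 0 0)
        have z8 : ∀ t ≤ bb (nn S) * fa (nn S), z (nm 8 t 0) = rt t := fun t ht => by
          rw [zt 8 t 0 (by norm_num), hx t ht]
        rw [key z z8 (by rw [ew]; exact z11 _), ew, zt 0 0 0 (by norm_num),
          zt 1 0 0 (by norm_num)]
        have e : (fun l : Fin (nn S) => z (nm 3 l 0)) = fun l : Fin (nn S) => x (nm 3 l 0) := by
          funext l
          exact zt 3 l 0 (by norm_num)
        rw [e]
        exact hw
      · exact absurd hφ (List.not_mem_nil)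

end Pool.Agent.W348.IP
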